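import Mathlib

/-!
# Admissible triples of any height (MP_7ecdd4_nt, n = 3): definitions of the machine
-/

set_option autoImplicit false

open MvPolynomial

namespace Pool.Agent.H82.RD

/-! ## polynomials, Hilbert function, dimension, translations -/

/-- polynomials in the variables `t_i = X (some i)` and `Y = X none` -/
abbrev PR (k : Type) [Field k] (u : ℕ) := MvPolynomial (Option (Fin u)) k

/-- the polynomials of degree at most `a` in the `t_i` and at most `b` in `Y` -/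
noncomputable def VV (k : Type) [Field k] (u a b : ℕ) : Submodule k (PR k u) :=
  restrictSupport k {m | ∑ i : Fin u, m (some i) ≤ a ∧ m none ≤ b}

/-- the dimension of the image of `VV (A S) (B S)` modulo `I` -/
noncomputable def hf {k : Type} [Field k] {u : ℕ} (A B : ℕ) (I : Ideal (PR k u)) (S : ℕ) : ℕ :=
  Module.finrank k ((VV k u (A * S) (B * S)).map (Ideal.Quotient.mkₐ k I).toLinearMap)

/-- the dimension of a prime ideal -/
noncomputable def dm {k : Type} [Field k] {u : ℕ} (I : Ideal (PR k u)) : ℕ :=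
  Cardinal.toNat (Algebra.trdeg k (PR k u ⧸ I))

/-- the translation `f(t, Y) ↦ f(t + w, y Y)` -/
noncomputable def tr {k : Type} [Field k] {u : ℕ} (w : Fin u → k) (y : k) :
    PR k u →ₐ[k] PR k u :=
  aeval (fun o : Option (Fin u) => o.elim (C y * X none) (fun i => X (some i) + C (w i)))

/-- the value at the point `(w, y)` -/
noncomputable def ev {k : Type} [Field k] {u : ℕ} (w : Fin u → k) (y : k) (P : PR k u) : k :=
  eval (fun o : Option (Fin u) => o.elim y w) P

/-- the part of `f` of degree exactly `b` in `Y` -/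
noncomputable def yc {k : Type} [Field k] {u : ℕ} (b : ℕ) (f : PR k u) : PR k u :=
  ∑ m ∈ f.support.filter (fun m => m none = b), monomial m (f.coeff m)

/-- the classes of the variables in `s` are algebraically independent modulo `p` -/
def Ind {k : Type} [Field k] {u : ℕ} (p : Ideal (PR k u)) (s : Finset (Option (Fin u))) : Prop :=
  AlgebraicIndependent k (fun i : s => Ideal.Quotient.mk p (X (i : Option (Fin u)) : PR k u))

/-! ## the interpolation matrix -/

/-- exponents of total degree at most `A` -/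
def Sx (u A : ℕ) : Finset (Fin u → ℕ) :=
  (Fintype.piFinset fun _ => Finset.range (A + 1)).filter fun a => ∑ i, a i ≤ A

/-- indices of the columns (and of the rows) -/
abbrev Cl (u A B : ℕ) := ↥(Sx u A) × Fin B

/-- the interpolation matrix -/
def im {R : Type} [CommRing R] {u : ℕ} (A B : ℕ) (y : Cl u A B → Fin u → R)
    (E : Cl u A B → R) : Matrix (Cl u A B) (Cl u A B) R :=
  Matrix.of fun r c => (∏ i, y r i ^ c.1.1 i) * E r ^ (c.2 : ℕ)

/-- `φ` is, modulo `ϖ ^ E`, a combination of the functions `y ^ c * binom(z, J)`, `|c| ≤ d`,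
`J < Jm`, with coefficients divisible by `ϖ ^ (J - i)` -/
def Xp {R : Type} [CommRing R] (ϖ : R) (E Jm : ℕ) {K : Type} {v : ℕ} (y : K → Fin v → R)
    (z : K → ℕ) (d i : ℕ) (φ : K → R) : Prop :=
  ∃ C : (Fin v → ℕ) → ℕ → R, (∀ c J, ϖ ^ (J - i) ∣ C c J) ∧
    ∀ k, ϖ ^ E ∣ φ k - ∑ c ∈ Sx v d, ∑ J ∈ Finset.range Jm,
      C c J * ((∏ j, y k j ^ c j) * ((z k).choose J : R))

/-! ## the machine -/

/-- the data of the machine -/
def MHyp (q : ℕ) [Fact q.Prime] (u : ℕ) {ι : Type} (S : Finset ι) (W : ι → Fin u → ℤ_[q])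
    (π den : ι → ℕ) (num : ι → Fin u → ℤ) (ζ : Fin u → ℤ_[q]) (κ e g D H : ℕ) : Prop :=
  (∀ s ∈ S, 1 ≤ π s ∧ π s ≤ H) ∧ Set.InjOn π (S : Set ι) ∧
  (∀ s ∈ S, 1 ≤ den s ∧ den s ≤ D) ∧ (∀ s ∈ S, ∀ l, |num s l| ≤ (D : ℤ)) ∧
  (∀ s ∈ S, ∀ l, (den s : ℤ_[q]) * W s l = (num s l : ℤ_[q])) ∧
  1 ≤ g ∧ q ∣ g - 1 ∧
  ∀ s ∈ S, ∀ s' ∈ S, ∃ z : ℕ,
    (q : ℤ_[q]) ^ e ∣ (π s : ℤ_[q]) - (π s' : ℤ_[q]) * (g : ℤ_[q]) ^ z ∧
    (q : ℤ_[q]) ^ e ∣ (q : ℤ_[q]) ^ κ * (z : ℤ_[q]) - ∑ l, ζ l * (W s l - W s' l)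

/-- the numerical condition in dimension `u` -/
def NC (q A B D H u : ℕ) : Prop :=
  (B * (A + u).choose u) * (((u + 1) * (2 * D ^ 2) ^ (u + 1)) ^ A * (H ^ (u + 1)) ^ B) <
    q ^ ((A * B / u - 2 * A) / 2)

/-! ## logarithms modulo prime powers -/

/-- `q` for odd `q`, and `4` for `q = 2` -/
def qh (q : ℕ) : ℕ := if q = 2 then 4 else q

/-- Euler's function of `qh q` -/
def ph (q : ℕ) : ℕ := if q = 2 then 2 else q - 1

end Pool.Agent.H82.RD
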