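import Mathlib
import Pool.Agent.H82.RD.Defs
import Pool.Agent.H38.PS.Targets2

/-!
# Admissible triples of any height with small radical (MP_7ecdd4_nt, n = 3): targets

Every `T_XXX : Prop` is to be proved as a theorem `pf_XXX : T_XXX` in its own file, other targets
being hypotheses.
-/

set_option autoImplicit false

open MvPolynomial

namespace Pool.Agent.H82.RD

/-! ## Z: the zero lemma -/

/-- ZSM: the dimension drops strictly. -/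
def T_ZSM : Prop := ∀ (k : Type) [Field k] (u : ℕ) (q p : Ideal (PR k u)),
  q.IsPrime → p.IsPrime → q < p → dm p < dm q

/-- ZD0: the dimension of the zero ideal. -/
def T_ZD0 : Prop := ∀ (k : Type) [Field k] (u : ℕ), dm (⊥ : Ideal (PR k u)) = u + 1

/-- ZPP: hypersurfaces. -/
def T_ZPP : Prop := ∀ (k : Type) [Field k] (n : ℕ) (g : MvPolynomial (Fin n) k), Prime g →
  (n : Cardinal) ≤ Algebra.trdeg k (MvPolynomial (Fin n) k ⧸ Ideal.span {g}) + 1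

/-- ZPD: primes of height at most one in affine domains. -/
def T_ZPD : Prop := ∀ (k : Type) [Field k] (D : Type) [CommRing D] [IsDomain D] [Algebra k D]
  [Algebra.FiniteType k D] (P : Ideal D) [P.IsPrime], P.height ≤ 1 →
  Algebra.trdeg k D ≤ Algebra.trdeg k (D ⧸ P) + 1

/-- ZPI: minimal primes over a hypersurface section. -/
def T_ZPI : Prop := ∀ (k : Type) [Field k] (u : ℕ) (q p : Ideal (PR k u)) (f : PR k u),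
  q.IsPrime → f ∉ q → p ∈ (q ⊔ Ideal.span {f}).minimalPrimes → dm q ≤ dm p + 1

/-- ZVB: algebraically independent variables modulo a prime are part of a transcendence basis
consisting of variables. -/
def T_ZVB : Prop := ∀ (k : Type) [Field k] (u : ℕ) (p : Ideal (PR k u))
  (s₀ : Finset (Option (Fin u))), p.IsPrime → Ind p s₀ →
  ∃ s : Finset (Option (Fin u)), s₀ ⊆ s ∧ Ind p s ∧ s.card = dm p

/-- ZLF: lower bound for the Hilbert function. -/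
def T_ZLF : Prop := ∀ (k : Type) [Field k] (u A B : ℕ) (p : Ideal (PR k u))
  (s : Finset (Option (Fin u))), 1 ≤ A → 1 ≤ B → Ind p s → ∀ S : ℕ,
  (if none ∈ s then s.card * A ^ (s.card - 1) * B else A ^ s.card) * S ^ s.card ≤
    s.card.factorial * hf A B p S

/-- ZQS: the Hilbert function of a hypersurface section. -/
def T_ZQS : Prop := ∀ (k : Type) [Field k] (u A B : ℕ) (q : Ideal (PR k u)) (f : PR k u),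
  q.IsPrime → f ∈ VV k u A B → f ∉ q →
  ∀ S : ℕ, hf A B (q ⊔ Ideal.span {f}) (S + 1) + hf A B q S ≤ hf A B q (S + 1)

/-- ZSD: the Hilbert function and several primes. -/
def T_ZSD : Prop := ∀ (k : Type) [Field k] (u A B : ℕ) (I : Ideal (PR k u))
  (PP : Finset (Ideal (PR k u))), 1 ≤ A → 1 ≤ B → (∀ p ∈ PP, p.IsPrime ∧ I ≤ p) →
  (∀ p ∈ PP, ∀ p' ∈ PP, p ≤ p' → p = p') →
  ∃ c : ℕ, ∀ S : ℕ, ∑ p ∈ PP, hf A B p S ≤ hf A B I (S + c)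

/-- ZRT: the Hilbert function of the zero ideal, leading term. -/
def T_ZRT : Prop := ∀ (k : Type) [Field k] (u A B N c : ℕ), 1 ≤ A → 1 ≤ B →
  (∀ S : ℕ, N * S ^ (u + 1) ≤ (u + 1).factorial * hf A B (⊥ : Ideal (PR k u)) (S + c)) →
  N ≤ (u + 1) * A ^ u * B

/-- ZCI: the induction for the number of minimal primes. -/
def T_ZCI : Prop := ∀ (k : Type) [Field k] (u A B e K : ℕ) (F : Set (PR k u))
  (PP : Finset (Ideal (PR k u))), 1 ≤ A → 1 ≤ B → (∀ f ∈ F, f ∈ VV k u A B) →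
  (∀ p ∈ PP, p.IsPrime ∧ F ⊆ (p : Set (PR k u)) ∧ dm p = e ∧
    ∀ S : ℕ, K * S ^ e ≤ e.factorial * hf A B p S) →
  (∀ p ∈ PP, ∀ p' : Ideal (PR k u), p'.IsPrime → F ⊆ (p' : Set (PR k u)) → p' ≤ p → p' = p) →
  ∀ (j : ℕ) (q : Ideal (PR k u)), q.IsPrime → dm q = e + j → ∀ PP' ⊆ PP, (∀ p ∈ PP', q ≤ p) →
    ∃ c : ℕ, ∀ S : ℕ, PP'.card * K * S ^ (e + j) ≤ (e + j).factorial * hf A B q (S + c)

/-- ZCT: the number of minimal primes. -/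
def T_ZCT : Prop := ∀ (k : Type) [Field k] (u A B e K : ℕ) (F : Set (PR k u))
  (PP : Finset (Ideal (PR k u))), 1 ≤ A → 1 ≤ B → (∀ f ∈ F, f ∈ VV k u A B) →
  (∀ p ∈ PP, p.IsPrime ∧ F ⊆ (p : Set (PR k u)) ∧ dm p = e ∧
    ∀ S : ℕ, K * S ^ e ≤ e.factorial * hf A B p S) →
  (∀ p ∈ PP, ∀ p' : Ideal (PR k u), p'.IsPrime → F ⊆ (p' : Set (PR k u)) → p' ≤ p → p' = p) →
  PP.card * K ≤ (u + 1) * A ^ u * B

/-- ZTV: translations preserve degrees. -/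
def T_ZTV : Prop := ∀ (k : Type) [Field k] (u a b : ℕ) (w : Fin u → k) (y : k) (f : PR k u),
  f ∈ VV k u a b → tr w y f ∈ VV k u a b

/-- ZTH: translations preserve dimension and Hilbert function. -/
def T_ZTH : Prop := ∀ (k : Type) [Field k] (u A B : ℕ) (w : Fin u → k) (y : k)
  (p : Ideal (PR k u)), y ≠ 0 →
  dm (p.comap (tr w y)) = dm p ∧ ∀ S : ℕ, hf A B (p.comap (tr w y)) S = hf A B p S

/-- ZCH: the chain argument. -/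
def T_ZCH : Prop := ∀ (k : Type) [Field k] (u A B : ℕ) (ι : Type) (S : Finset ι)
  (w : ι → Fin u → k) (y : ι → k) (P : PR k u) (s₀ : ι), P ≠ 0 → P ∈ VV k u A B → s₀ ∈ S →
  w s₀ = 0 → y s₀ = 1 → (∀ s ∈ S, y s ≠ 0) →
  (∀ g : Fin (u + 1) → ι, (∀ i, g i ∈ S) → ev (∑ i, w (g i)) (∏ i, y (g i)) P = 0) →
  ∃ (p : Ideal (PR k u)) (F : Set (PR k u)), p.IsPrime ∧ (X none : PR k u) ∉ p ∧ P ∈ p ∧
    (∀ f ∈ F, f ∈ VV k u A B) ∧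
    ∀ s ∈ S, F ⊆ ((p.comap (tr (w s) (y s)) : Ideal (PR k u)) : Set (PR k u)) ∧
      ∀ p' : Ideal (PR k u), p'.IsPrime → F ⊆ (p' : Set (PR k u)) →
        p' ≤ p.comap (tr (w s) (y s)) → p' = p.comap (tr (w s) (y s))

/-- ZSP: an ideal stable under a translation with `y` not a root of unity is homogeneous
in `Y`. -/
def T_ZSP : Prop := ∀ (k : Type) [Field k] [CharZero k] (u : ℕ) (w : Fin u → k) (y : k)
  (p : Ideal (PR k u)), y ≠ 0 → (∀ n : ℕ, 1 ≤ n → y ^ n ≠ 1) → (∀ f ∈ p, tr w y f ∈ p) →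
  ∀ f ∈ p, ∀ b : ℕ, yc b f ∈ p

/-- ZIN: adding the variable `Y` to independent variables. -/
def T_ZIN : Prop := ∀ (k : Type) [Field k] (u : ℕ) (p : Ideal (PR k u)) (J : Finset (Fin u)),
  p.IsPrime → (X none : PR k u) ∉ p → (∀ f ∈ p, ∀ b : ℕ, yc b f ∈ p) →
  Ind p (J.map ⟨some, Option.some_injective _⟩) →
  Ind p (insert none (J.map ⟨some, Option.some_injective _⟩))

/-- ZUV: the translations which stabilise the polynomials of `p` without `Y` form a subspace. -/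
def T_ZUV : Prop := ∀ (k : Type) [Field k] [CharZero k] (u : ℕ) (p : Ideal (PR k u)),
  ∃ U : Submodule k (Fin u → k), ∀ w : Fin u → k, w ∈ U ↔
    ∀ f : MvPolynomial (Fin u) k, rename some f ∈ p → tr w 1 (rename some f) ∈ p

/-- ZCO: coordinates on a subspace. -/
def T_ZCO : Prop := ∀ (k : Type) [Field k] (u : ℕ) (U : Submodule k (Fin u → k)),
  ∃ J : Finset (Fin u), J.card = Module.finrank k U ∧
    ∀ v : Fin u → k, ∃ w ∈ U, ∀ j ∈ J, w j = v j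

/-- ZJI: coordinates which can be translated arbitrarily are independent. -/
def T_ZJI : Prop := ∀ (k : Type) [Field k] [CharZero k] (u : ℕ) (p : Ideal (PR k u))
  (J : Finset (Fin u)), p.IsPrime →
  (∀ v : Fin u → k, ∃ w : Fin u → k, (∀ j ∈ J, w j = v j) ∧
    ∀ f : MvPolynomial (Fin u) k, rename some f ∈ p → tr w 1 (rename some f) ∈ p) →
  Ind p (J.map ⟨some, Option.some_injective _⟩)

/-- ZLN: the zero lemma, normalised form. -/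
def T_ZLN : Prop := ∀ (k : Type) [Field k] [CharZero k] (u A B : ℕ) (ι : Type) (S : Finset ι)
  (w : ι → Fin u → k) (y : ι → k) (P : PR k u) (s₀ : ι), 1 ≤ A → 1 ≤ B → P ≠ 0 →
  P ∈ VV k u A B → s₀ ∈ S → w s₀ = 0 → y s₀ = 1 → (∀ s ∈ S, y s ≠ 0) →
  (∀ s ∈ S, ∀ s' ∈ S, s ≠ s' → ∀ n : ℕ, 1 ≤ n → y s ^ n ≠ y s' ^ n) →
  (∀ g : Fin (u + 1) → ι, (∀ i, g i ∈ S) → ev (∑ i, w (g i)) (∏ i, y (g i)) P = 0) →
  S.card ≤ (u + 1) * A ^ u * B ∨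
    ∃ U : Submodule k (Fin u → k), U ≠ ⊤ ∧
      ((fun s => U.mkQ (w s)) '' (S : Set ι)).ncard ≤ (u + 1) * A ^ (u - Module.finrank k U)

/-- ZLM: the zero lemma. -/
def T_ZLM : Prop := ∀ (k : Type) [Field k] [CharZero k] (u A B : ℕ) (ι : Type) (S : Finset ι)
  (w : ι → Fin u → k) (y : ι → k) (P : PR k u), 1 ≤ A → 1 ≤ B → P ≠ 0 →
  P ∈ VV k u A B → (∀ s ∈ S, y s ≠ 0) →
  (∀ s ∈ S, ∀ s' ∈ S, s ≠ s' → ∀ n : ℕ, 1 ≤ n → y s ^ n ≠ y s' ^ n) →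
  (∀ g : Fin (u + 1) → ι, (∀ i, g i ∈ S) → ev (∑ i, w (g i)) (∏ i, y (g i)) P = 0) →
  S.card ≤ (u + 1) * A ^ u * B ∨
    ∃ U : Submodule k (Fin u → k), U ≠ ⊤ ∧
      ((fun s => U.mkQ (w s)) '' (S : Set ι)).ncard ≤ (u + 1) * A ^ (u - Module.finrank k U)

/-! ## D: the determinant -/

/-- DCA: the number of exponents. -/
def T_DCA : Prop := ∀ u A : ℕ, (Sx u A).card = (A + u).choose u

/-- DLA: a determinant whose columns are combinations with small coefficients. -/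
def T_DLA : Prop := ∀ (R : Type) [CommRing R] (ϖ : R) (κ I : Type) [Fintype κ] [DecidableEq κ]
  [Fintype I] (G : κ → I → R) (C : I → κ → R) (om : I → ℕ) (de : κ → ℕ) (N : ℕ),
  (∀ c j, ϖ ^ (om c - de j) ∣ C c j) →
  (∀ f : κ → I, Function.Injective f → N + ∑ j, de j ≤ ∑ j, om (f j)) →
  ϖ ^ N ∣ (Matrix.of fun i j => ∑ c, G i c * C c j).det

/-- DCW: distinct indices have large weights. -/
def T_DCW : Prop := ∀ (κ I : Type) [Fintype κ] [Fintype I] (om : I → ℕ) (N' T : ℕ),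
  (∀ t : ℕ, 1 ≤ t → t ≤ T → (Finset.univ.filter fun c : I => om c < t).card ≤ N' * t) →
  ∀ f : κ → I, Function.Injective f →
    2 * T * Fintype.card κ ≤ 2 * ∑ j, om (f j) + N' * (T * (T + 1))

/-- DXL: the class `Xp` is closed under linear operations and congruence. -/
def T_DXL : Prop := ∀ (R : Type) [CommRing R] (ϖ : R) (E Jm : ℕ) (K : Type) (v : ℕ)
  (y : K → Fin v → R) (z : K → ℕ),
  (∀ d i φ ψ, Xp ϖ E Jm y z d i φ → Xp ϖ E Jm y z d i ψ →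
    Xp ϖ E Jm y z d i fun k => φ k + ψ k) ∧
  (∀ d i φ (a : R), Xp ϖ E Jm y z d i φ → Xp ϖ E Jm y z d i fun k => a * φ k) ∧
  (∀ d i d' i' φ, d ≤ d' → i ≤ i' → Xp ϖ E Jm y z d i φ → Xp ϖ E Jm y z d' i' φ) ∧
  (∀ d i φ ψ, (∀ k, ϖ ^ E ∣ φ k - ψ k) → Xp ϖ E Jm y z d i φ → Xp ϖ E Jm y z d i ψ)

/-- DXY: multiplication by `y_j`. -/
def T_DXY : Prop := ∀ (R : Type) [CommRing R] (ϖ : R) (E Jm : ℕ) (K : Type) (v : ℕ)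
  (y : K → Fin v → R) (z : K → ℕ) (d i : ℕ) (φ : K → R) (j : Fin v),
  Xp ϖ E Jm y z d i φ → Xp ϖ E Jm y z (d + 1) i fun k => y k j * φ k

/-- DXZ: multiplication by `z`. -/
def T_DXZ : Prop := ∀ (R : Type) [CommRing R] (ϖ : R) (E Jm : ℕ) (K : Type) (v : ℕ)
  (y : K → Fin v → R) (z : K → ℕ) (d i : ℕ) (φ : K → R), (∀ k, z k < Jm) →
  Xp ϖ E Jm y z d i φ → Xp ϖ E Jm y z d (i + 1) fun k => (z k : R) * φ k

/-- DXO: powers `(1 + Q) ^ z`. -/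
def T_DXO : Prop := ∀ (R : Type) [CommRing R] (ϖ : R) (E Jm : ℕ) (K : Type) (v : ℕ)
  (y : K → Fin v → R) (z : K → ℕ) (E₀ Q : R), (∀ k, z k < Jm) → ϖ ∣ Q →
  Xp ϖ E Jm y z 0 0 fun k => E₀ * (1 + Q) ^ z k

/-- DXI: the expansion of the columns. -/
def T_DXI : Prop := ∀ (R : Type) [CommRing R] (ϖ : R) (E Jm : ℕ) (K : Type) (v : ℕ)
  (y : K → Fin v → R) (z : K → ℕ) (y₁ : K → R) (ξ : R) (η : Fin v → R) (E₀ Q : R),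
  (∀ k, z k < Jm) → ϖ ∣ Q → (∀ k, ϖ ^ E ∣ y₁ k - (ξ * (z k : R) + ∑ j, η j * y k j)) →
  ∀ (a : Fin v → ℕ) (i : ℕ),
    Xp ϖ E Jm y z (∑ j, a j + i) i fun k =>
      (∏ j, y k j ^ a j) * y₁ k ^ i * (E₀ * (1 + Q) ^ z k)

/-- DC1: the determinant in the first case. -/
def T_DC1 : Prop := ∀ (R : Type) [CommRing R] (ϖ : R) (u A B E N : ℕ)
  (y : Cl u A B → Fin u → R) (EE : Cl u A B → R) (E₀ : R), 2 ≤ B →
  2 * N ≤ B * (A + u).choose u * E → (∀ r, ϖ ^ E ∣ EE r - E₀) → ϖ ^ N ∣ (im A B y EE).det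

/-- DC2: the determinant in the second case. -/
def T_DC2 : Prop := ∀ (R : Type) [CommRing R] (ϖ : R) (v A B E T N : ℕ)
  (y : Cl (v + 1) A B → Fin (v + 1) → R) (EE : Cl (v + 1) A B → R)
  (z : Cl (v + 1) A B → ℕ) (E₀ : R) (Q : ℕ → R) (i₁ : Fin (v + 1)) (ξ : R) (η : Fin v → R),
  1 ≤ A → 1 ≤ B → (v + 1) * T ≤ A * B → T ≤ E →
  2 * N + 2 * A * (B * (A + (v + 1)).choose (v + 1)) ≤ B * (A + (v + 1)).choose (v + 1) * T →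
  (∀ b, ϖ ∣ Q b) → (∀ r (b : ℕ), ϖ ^ E ∣ EE r ^ b - E₀ ^ b * (1 + Q b) ^ z r) →
  (∀ r, ϖ ^ E ∣ y r i₁ - (ξ * (z r : R) + ∑ j, η j * y r (i₁.succAbove j))) →
  ϖ ^ N ∣ (im A B y EE).det

/-- DZE: elimination of one coordinate. -/
def T_DZE : Prop := ∀ (q : ℕ) [Fact q.Prime] (v κ e : ℕ) (ζ : Fin (v + 1) → ℤ_[q]),
  (∀ j, (q : ℤ_[q]) ^ (e / 2) ∣ ζ j) ∨
  ∃ (i₁ : Fin (v + 1)) (ν : ℕ) (ξ : ℤ_[q]) (η : Fin v → ℤ_[q]),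
    ∀ (y : Fin (v + 1) → ℤ_[q]) (z : ℕ),
      (q : ℤ_[q]) ^ e ∣ (q : ℤ_[q]) ^ κ * (z : ℤ_[q]) - ∑ j, ζ j * y j →
      ∃ z' : ℕ, z = q ^ ν * z' ∧
        (q : ℤ_[q]) ^ (e / 2) ∣ y i₁ - (ξ * (z' : ℤ_[q]) + ∑ j, η j * y (i₁.succAbove j))

/-- DCL: the determinant is divisible by a high power of `q`. -/
def T_DCL : Prop := ∀ (q : ℕ) [Fact q.Prime] (v A B κ e T N g : ℕ) (ζ : Fin (v + 1) → ℤ_[q])
  (E₀ : ℤ_[q]) (y : Cl (v + 1) A B → Fin (v + 1) → ℤ_[q]) (EE : Cl (v + 1) A B → ℤ_[q])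
  (z : Cl (v + 1) A B → ℕ), 1 ≤ A → 2 ≤ B → 1 ≤ g → q ∣ g - 1 → 2 * (A * B + κ) ≤ e →
  (v + 1) * T ≤ A * B →
  2 * N + 2 * A * (B * (A + (v + 1)).choose (v + 1)) ≤ B * (A + (v + 1)).choose (v + 1) * T →
  (∀ r, (q : ℤ_[q]) ^ e ∣ EE r - E₀ * (g : ℤ_[q]) ^ z r) →
  (∀ r, (q : ℤ_[q]) ^ e ∣ (q : ℤ_[q]) ^ κ * (z r : ℤ_[q]) - ∑ j, ζ j * y r j) →
  (q : ℤ_[q]) ^ N ∣ (im A B y EE).det

/-- DPF: a small integer divisible by a high power vanishes. -/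
def T_DPF : Prop := ∀ (q : ℕ) [Fact q.Prime] (κ : Type) [Fintype κ] [DecidableEq κ]
  (Z : Matrix κ κ ℤ) (F : Matrix κ κ ℤ_[q]) (d : κ → ℕ) (Bd N : ℕ), (∀ i, d i ≠ 0) →
  (∀ i j, ((Z i j : ℤ) : ℤ_[q]) = (d i : ℤ_[q]) * F i j) → (∀ i j, |Z i j| ≤ (Bd : ℤ)) →
  (q : ℤ_[q]) ^ N ∣ F.det → (Fintype.card κ * Bd) ^ Fintype.card κ < q ^ N → F.det = 0

/-- DRK: if all determinants vanish there is a polynomial. -/
def T_DRK : Prop := ∀ (k : Type) [Field k] (u A B : ℕ) (K : Set ((Fin u → k) × k)), 1 ≤ B →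
  (∀ g : Cl u A B → (Fin u → k) × k, (∀ c, g c ∈ K) →
    (im A B (fun c => (g c).1) fun c => (g c).2).det = 0) →
  ∃ P : PR k u, P ≠ 0 ∧ P ∈ VV k u A B ∧ ∀ x ∈ K, ev x.1 x.2 P = 0

/-! ## M: the machine -/

/-- UCO: coordinates on a subspace with integral coefficients. -/
def T_UCO : Prop := ∀ (q : ℕ) [Fact q.Prime] (r : ℕ) (U : Submodule ℚ_[q] (Fin r → ℚ_[q])),
  ∃ (J : Fin (Module.finrank ℚ_[q] U) → Fin r)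
    (c : Fin r → Fin (Module.finrank ℚ_[q] U) → ℤ_[q]),
    ∀ y ∈ U, ∀ l, y l = ∑ j, (c l j : ℚ_[q]) * y (J j)

/-- MZ0: dimension zero. -/
def T_MZ0 : Prop := ∀ (q : ℕ) [Fact q.Prime] (ι : Type) (S : Finset ι)
  (W : ι → Fin 0 → ℤ_[q]) (π den : ι → ℕ) (num : ι → Fin 0 → ℤ) (ζ : Fin 0 → ℤ_[q])
  (κ e g D H : ℕ), MHyp q 0 S W π den num ζ κ e g D H → H < q ^ (e - κ) → S.card ≤ 1

/-- MRS: restriction to a coset. -/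
def T_MRS : Prop := ∀ (q : ℕ) [Fact q.Prime] (u : ℕ) (ι : Type) (S : Finset ι)
  (W : ι → Fin u → ℤ_[q]) (π den : ι → ℕ) (num : ι → Fin u → ℤ) (ζ : Fin u → ℤ_[q])
  (κ e g D H : ℕ) (U : Submodule ℚ_[q] (Fin u → ℚ_[q])) (S' : Finset ι),
  MHyp q u S W π den num ζ κ e g D H → S' ⊆ S →
  (∀ s ∈ S', ∀ s' ∈ S', (fun l => ((W s l - W s' l : ℤ_[q]) : ℚ_[q])) ∈ U) →
  ∃ (W' : ι → Fin (Module.finrank ℚ_[q] U) → ℤ_[q])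
    (num' : ι → Fin (Module.finrank ℚ_[q] U) → ℤ) (ζ' : Fin (Module.finrank ℚ_[q] U) → ℤ_[q]),
    MHyp q (Module.finrank ℚ_[q] U) S' W' π den num' ζ' κ e g D H

/-- MDV: all determinants of sums of `v + 2` elements vanish. -/
def T_MDV : Prop := ∀ (q : ℕ) [Fact q.Prime] (v : ℕ) (ι : Type) (S : Finset ι)
  (W : ι → Fin (v + 1) → ℤ_[q]) (π den : ι → ℕ) (num : ι → Fin (v + 1) → ℤ)
  (ζ : Fin (v + 1) → ℤ_[q]) (κ e g D H A B : ℕ) (s₀ : ι),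
  MHyp q (v + 1) S W π den num ζ κ e g D H → s₀ ∈ S → 1 ≤ A → 2 ≤ B →
  2 * (A * B + κ) ≤ e → NC q A B D H (v + 1) →
  ∀ k : Cl (v + 1) A B → Fin (v + 2) → ι, (∀ c i, k c i ∈ S) →
    (im A B (fun c l => ∑ i, (W (k c i) l - W s₀ l))
      fun c => ((∏ i, π (k c i) : ℕ) : ℤ_[q])).det = 0

/-- MST: one step. -/
def T_MST : Prop := ∀ (q : ℕ) [Fact q.Prime] (v : ℕ) (ι : Type) (S : Finset ι)
  (W : ι → Fin (v + 1) → ℤ_[q]) (π den : ι → ℕ) (num : ι → Fin (v + 1) → ℤ)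
  (ζ : Fin (v + 1) → ℤ_[q]) (κ e g D H A B : ℕ),
  MHyp q (v + 1) S W π den num ζ κ e g D H → 1 ≤ A → 2 ≤ B →
  2 * (A * B + κ) ≤ e → NC q A B D H (v + 1) →
  S.card ≤ (v + 2) * A ^ (v + 1) * B ∨
    ∃ U : Submodule ℚ_[q] (Fin (v + 1) → ℚ_[q]), U ≠ ⊤ ∧
      ((fun s => U.mkQ fun l => (W s l : ℚ_[q])) '' (S : Set ι)).ncard ≤
        (v + 2) * A ^ (v + 1 - Module.finrank ℚ_[q] U)

/-- MTH: the machine. -/
def T_MTH : Prop := ∀ (q : ℕ) [Fact q.Prime] (r : ℕ) (ι : Type) (S : Finset ι)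
  (W : ι → Fin r → ℤ_[q]) (π den : ι → ℕ) (num : ι → Fin r → ℤ) (ζ : Fin r → ℤ_[q])
  (κ e g D H A B : ℕ),
  MHyp q r S W π den num ζ κ e g D H → 1 ≤ A → 2 ≤ B → 2 * (A * B + κ) ≤ e →
  H < q ^ (e - κ) → (∀ u : ℕ, 1 ≤ u → u ≤ r → NC q A B D H u) →
  S.card ≤ (r + 1) * B * ((r + 1) * A) ^ r

/-! ## L: logarithms modulo prime powers -/

/-- LDL: powers of `1 + qh q`. -/
def T_LDL : Prop := ∀ q e : ℕ, q.Prime →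
  (∀ x x' : ℕ, x.Coprime q → x'.Coprime q → x ≡ x' [MOD qh q] →
    ∃ z : ℕ, x ≡ x' * (1 + qh q) ^ z [MOD q ^ e]) ∧
  (∀ a b : ℕ, (1 + qh q) ^ a ≡ (1 + qh q) ^ b [MOD q ^ e] → a ≡ b [MOD q ^ (e - 2)]) ∧
  ∀ x : ℕ, x.Coprime q → x ^ ph q ≡ 1 [MOD qh q]

/-- LPR: logarithms of products. -/
def T_LPR : Prop := ∀ (q e : ℕ) (ζ : ℕ → ℕ) (ι : Type) (I : Finset ι) (l k k' : ι → ℕ),
  q.Prime → (∀ m : ℕ, m.Coprime q → m ^ ph q ≡ (1 + qh q) ^ ζ m [MOD q ^ e]) →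
  (∀ i ∈ I, (l i).Coprime q) → ∏ i ∈ I, l i ^ k i ≡ ∏ i ∈ I, l i ^ k' i [MOD qh q] →
  ∃ z : ℕ, ∏ i ∈ I, l i ^ k i ≡ (∏ i ∈ I, l i ^ k' i) * (1 + qh q) ^ z [MOD q ^ e] ∧
    ∑ i ∈ I, k i * ζ (l i) ≡ ∑ i ∈ I, k' i * ζ (l i) + ph q * z [MOD q ^ (e - 2)]

/-- LRL: logarithms and a relation. -/
def T_LRL : Prop := ∀ (q e : ℕ) (ζ : ℕ → ℕ) (ι : Type) (I : Finset ι) (l α γ : ι → ℕ),
  q.Prime → (∀ m : ℕ, m.Coprime q → m ^ ph q ≡ (1 + qh q) ^ ζ m [MOD q ^ e]) →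
  (∀ i ∈ I, (l i).Coprime q) →
  (∏ i ∈ I, l i ^ γ i) ^ 2 ≡ (∏ i ∈ I, l i ^ α i) ^ 2 [MOD q ^ e] →
  ∑ i ∈ I, γ i * ζ (l i) ≡ ∑ i ∈ I, α i * ζ (l i) [MOD q ^ (e - 3)]

/-! ## S: one large prime -/

/-- the sets of `τ` elements of `P` with product in a given class -/
def Tau (q τ c : ℕ) (P : Finset ℕ) : Finset (Finset ℕ) :=
  (P.powersetCard τ).filter fun T => (∏ p ∈ T, p) % qh q = c

/-- SMH: the data of the machine for many commensurable primes. -/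
def T_SMH : Prop := ∀ (q : ℕ) [Fact q.Prime] (e τ c Bd Xn : ℕ) (S P : Finset ℕ) (n : ℕ → ℕ)
  (α γ : ℕ → ℕ → ℕ), 1 ≤ τ → (∀ l ∈ S, l.Coprime q) →
  (∀ p ∈ P, p.Prime ∧ p ≠ q ∧ p ∉ S ∧ p ≤ Xn ∧ 1 ≤ n p ∧ n p ≤ Bd ∧
    (∀ l ∈ S, α p l ≤ Bd ∧ γ p l ≤ Bd) ∧
    (p ^ n p * ∏ l ∈ S, l ^ γ p l) ^ 2 ≡ (∏ l ∈ S, l ^ α p l) ^ 2 [MOD q ^ e]) →
  ∃ (κ : ℕ) (W : Finset ℕ → Fin S.card → ℤ_[q]) (num : Finset ℕ → Fin S.card → ℤ)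
    (ζ : Fin S.card → ℤ_[q]), q ^ κ ≤ q * max 1 Bd ∧
    MHyp q S.card (Tau q τ c P) W (fun T => ∏ p ∈ T, p) (fun T => ∏ p ∈ T, n p) num ζ κ (e - 3)
      (1 + qh q) (τ * Bd ^ (τ + 1)) (Xn ^ τ)

/-- SNU: choice of the parameters. -/
def T_SNU : Prop := ∀ γ c : ℝ, 0 < γ → 0 < c → ∃ X₀ τ : ℕ, 2 ≤ X₀ ∧ 1 ≤ τ ∧
  ∀ X q r e κ N Bd : ℕ, X₀ ≤ X → 2 ≤ q → q ≤ X → r.factorial ≤ X → (X : ℝ) ^ c ≤ e →
  1 ≤ Bd → Bd ≤ X ^ 30 → q ^ κ ≤ q * Bd → (X : ℝ) ^ γ ≤ N →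
  ∃ A B : ℕ, 1 ≤ A ∧ 2 ≤ B ∧ 2 * (A * B + κ) ≤ e - 3 ∧ X ^ τ < q ^ (e - 3 - κ) ∧
    (∀ u : ℕ, 1 ≤ u → u ≤ r → NC q A B (τ * Bd ^ (τ + 1)) (X ^ τ) u) ∧
    (r + 1) * B * ((r + 1) * A) ^ r * (4 * X) < N.choose τ

/-- SAB: few primes are commensurable with `S` modulo a high power of `q`. -/
def T_SAB : Prop := ∀ γ c : ℝ, 0 < γ → 0 < c → ∃ X₀ : ℕ, 2 ≤ X₀ ∧
  ∀ (X q e : ℕ) (S P : Finset ℕ) (n : ℕ → ℕ) (α β : ℕ → ℕ → ℕ), X₀ ≤ X → q.Prime → q ≤ X →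
  (∀ l ∈ S, l.Prime ∧ l ≠ q) → ∏ l ∈ S, l ≤ X → (X : ℝ) ^ c ≤ e →
  (∀ p ∈ P, p.Prime ∧ p ≠ q ∧ p ∉ S ∧ p ≤ X ∧ 1 ≤ n p ∧ n p ≤ X ^ 30 ∧
    (∀ l ∈ S, α p l ≤ X ^ 30 ∧ β p l ≤ X ^ 30) ∧
    (p ^ n p * ∏ l ∈ S, l ^ β p l) ^ 2 ≡ (∏ l ∈ S, l ^ α p l) ^ 2 [MOD q ^ e]) →
  (P.card : ℝ) < (X : ℝ) ^ γ

/-! ## H: the height bound -/

/-- the exponent vectors with entries at most `T` and product in a given class -/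
def Kap (q T c : ℕ) {n : ℕ} (l : Fin n → ℕ) : Finset (Fin n → ℕ) :=
  (Fintype.piFinset fun _ => Finset.range (T + 1)).filter fun k => (∏ i, l i ^ k i) % qh q = c

/-- HMH: the data of the machine for one relation. -/
def T_HMH : Prop := ∀ (q : ℕ) [Fact q.Prime] (r e T c Bd : ℕ) (l : Fin (r + 1) → ℕ)
  (α γ : Fin (r + 1) → ℕ), Function.Injective l → (∀ i, (l i).Prime ∧ l i ≠ q) → 1 ≤ T →
  (∀ i, α i ≠ γ i ∧ α i ≤ Bd ∧ γ i ≤ Bd) →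
  (∏ i, l i ^ γ i) ^ 2 ≡ (∏ i, l i ^ α i) ^ 2 [MOD q ^ e] →
  ∃ (μ : ℕ) (W : (Fin (r + 1) → ℕ) → Fin r → ℤ_[q]) (den : (Fin (r + 1) → ℕ) → ℕ)
    (num : (Fin (r + 1) → ℕ) → Fin r → ℤ) (ζ : Fin r → ℤ_[q]), q ^ μ ≤ Bd ∧
    MHyp q r (Kap q T c l) W (fun k => ∏ i, l i ^ k i) den num ζ 1 (e - 3 - μ) (1 + qh q)
      (2 * Bd * T) ((∏ i, l i) ^ T)

/-- HNU: choice of the parameters. -/
def T_HNU : Prop := ∃ X₀ : ℕ, 2 ≤ X₀ ∧ ∀ X q r e Bd : ℕ, X₀ ≤ X → 2 ≤ q → q ≤ X →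
  (r + 1).factorial ≤ X → X ^ 20 ≤ Bd → Bd ≤ 4 * X * e →
  ∃ T : ℕ, 1 ≤ T ∧ ∀ μ : ℕ, q ^ μ ≤ Bd →
  ∃ A B : ℕ, 1 ≤ A ∧ 2 ≤ B ∧ 2 * (A * B + 1) ≤ e - 3 - μ ∧
    X ^ T < q ^ (e - 3 - μ - 1) ∧
    (∀ u : ℕ, 1 ≤ u → u ≤ r → NC q A B (2 * Bd * T) (X ^ T) u) ∧
    (r + 1) * B * ((r + 1) * A) ^ r * (4 * X) < (T + 1) ^ (r + 1)

/-- HAB: the exponents in a relation are small. -/
def T_HAB : Prop := ∃ X₀ : ℕ, 2 ≤ X₀ ∧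
  ∀ (X q e r Bd : ℕ) (l : Fin (r + 1) → ℕ) (α γ : Fin (r + 1) → ℕ), X₀ ≤ X → q.Prime →
  q ≤ X → Function.Injective l → (∀ i, (l i).Prime ∧ l i ≠ q) → ∏ i, l i ≤ X →
  (∀ i, α i ≠ γ i ∧ α i ≤ Bd ∧ γ i ≤ Bd) →
  (∏ i, l i ^ γ i) ^ 2 ≡ (∏ i, l i ^ α i) ^ 2 [MOD q ^ e] → Bd ≤ 4 * X * e → Bd < X ^ 20

/-! ## triples -/

open Pool.Agent.H38.RB Pool.Agent.H38.PS

/-- TQC: choice of the prime `q`. -/
def T_TQC : Prop := ∀ (x : Fin 3 → ℤ) (a : Fin 3) (S : Finset ℕ) (X Λ : ℝ), Adm x →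
  (∀ l ∈ S, l.Prime) → (pd S : ℝ) ≤ X → 0 < Λ → Λ ≤ Real.log (tp S (x a).natAbs) →
  ∃ q ∈ S, q ∣ (x a).natAbs ∧ Λ ≤ ((x a).natAbs.factorization q : ℝ) * Real.log X

/-- THB: a weak height bound. -/
def T_THB : Prop := ∃ X₀ : ℝ, 2 ≤ X₀ ∧ ∀ (X : ℝ) (x : Fin 3 → ℤ), X₀ ≤ X → Adm x →
  (pd (pr x).primeFactors : ℝ) ≤ X → Real.log (ht x) ≤ X ^ 20

/-- the primes `p ≤ X` outside `S` such that there is a triple with radical at most `X`, with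
entries `x c` composed of primes in `S`, `x b` composed of primes in `S ∪ {p}` and divisible by
`p`, and `x a` with `S`-part at least `H ^ δ`, of height at least `exp (X ^ c₀)` -/
def famU (X δ c₀ : ℝ) (S : Finset ℕ) : Set ℕ :=
  {p | p.Prime ∧ p ∉ S ∧ (p : ℝ) ≤ X ∧ ∃ (x : Fin 3 → ℤ) (a b c : Fin 3), Adm x ∧
    (pd (pr x).primeFactors : ℝ) ≤ X ∧
    a ≠ b ∧ a ≠ c ∧ b ≠ c ∧ (x c).natAbs.primeFactors ⊆ S ∧
    (x b).natAbs.primeFactors ⊆ insert p S ∧ p ∣ (x b).natAbs ∧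
    δ * Real.log (ht x) ≤ Real.log (tp S (x a).natAbs) ∧ X ^ c₀ ≤ Real.log (ht x)}

/-- TLS: there are few such primes. -/
def T_TLS : Prop := ∀ γ δ c₀ : ℝ, 0 < γ → 0 < δ → 0 < c₀ → ∃ X₀ : ℝ, 2 ≤ X₀ ∧
  ∀ (X : ℝ) (S : Finset ℕ), X₀ ≤ X → (∀ q ∈ S, q.Prime) → (pd S : ℝ) ≤ X →
    (famU X δ c₀ S).Finite ∧ ((famU X δ c₀ S).ncard : ℝ) ≤ X ^ γ

/-- TLP: the triples of `Two` of large height. -/
def T_TLP : Prop := ∀ ε δ c₀ : ℝ, 0 < ε → 0 < δ → 0 < c₀ → ∃ C : ℝ, 0 < C ∧ ∀ X Y : ℝ,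
  2 ≤ X → 1 ≤ Y →
  {x | x ∈ Two X Y δ ∧ X ^ c₀ ≤ Real.log (ht x)}.Finite ∧
  ({x | x ∈ Two X Y δ ∧ X ^ c₀ ≤ Real.log (ht x)}.ncard : ℝ) ≤ C * Y * X ^ ε

/-- TFI: the count without any restriction of the height. -/
def T_TFI : Prop := ∀ ε : ℝ, 0 < ε → ∃ C : ℝ, 0 < C ∧ ∀ X : ℝ, 1 ≤ X →
  {x | Adm x ∧ (pd (pr x).primeFactors : ℝ) ≤ X}.Finite ∧
  ({x | Adm x ∧ (pd (pr x).primeFactors : ℝ) ≤ X}.ncard : ℝ) ≤ C * X ^ (2 / 3 + ε)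

end Pool.Agent.H82.RD
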