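import Mathlib
import Pool.Agent.H82.RD.Targets

/-!
# Triples with one entry of given radical: targets

The number of admissible triples of any height with `rad (x 0) = s` and `rad (x 1 * x 2) ≤ R` is at
most `C (s R) ^ ε R ^ (1 / 2)`.
-/

set_option autoImplicit false

open Pool.Agent.H38.RB Pool.Agent.H38.PS

namespace Pool.Agent.H82.RD

/-- the triples with `rad (x 0) = s`, radical at most `X`, for which the part of the radical prime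
to `s`, divided by a prime `p` of an entry `x b`, `b ≠ 0`, and by a set `E` of primes of another
entry `x a` (`E` empty if `a = 0`), is at most `Y` -/
def Two4 (s : ℕ) (X Y δ : ℝ) : Set (Fin 3 → ℤ) :=
  {x | Adm x ∧ pd (x 0).natAbs.primeFactors = s ∧ (pd (pr x).primeFactors : ℝ) ≤ X ∧
    ∃ (a b : Fin 3) (p : ℕ) (E : Finset ℕ), a ≠ b ∧ b ≠ 0 ∧ (a = 0 → E = ∅) ∧
    p ∈ (x b).natAbs.primeFactors ∧ E ⊆ (x a).natAbs.primeFactors ∧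
    Real.log (tp E (x a).natAbs) + δ * Real.log (ht x) ≤ Real.log ((x a).natAbs : ℝ) ∧
    (pd (pr x).primeFactors : ℝ) ≤ Y * s * p * pd E}

/-- POW4: the number of prime factors, pointwise. -/
def T_POW4 : Prop := ∀ A ε : ℝ, 1 ≤ A → 0 < ε → ∃ C : ℝ, 1 ≤ C ∧ ∀ s : ℕ, 1 ≤ s →
  A ^ s.primeFactors.card ≤ C * (s : ℝ) ^ ε

/-- SEL4: choice of the primes to be removed, the primes of `x 0` being kept. -/
def T_SEL4 : Prop := ∀ ε : ℝ, 0 < ε → ∃ δ K : ℝ, 0 < δ ∧ δ < 1 ∧ 0 ≤ K ∧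
  ∀ x : Fin 3 → ℤ, Adm x → K ≤ Real.log (ht x) →
  (∃ E ⊆ (pr x).primeFactors, Disjoint E (x 0).natAbs.primeFactors ∧
    Real.log (tp E (pr x)) ≤ (1 - δ) * Real.log (ht x) ∧
    Real.log (pd ((x 1 * x 2).natAbs.primeFactors \ E)) ≤
      (1 / 2 + ε) * Real.log (pd (x 1 * x 2).natAbs.primeFactors)) ∨
  ∃ (a b : Fin 3) (p : ℕ) (E : Finset ℕ), a ≠ b ∧ b ≠ 0 ∧ (a = 0 → E = ∅) ∧
    p ∈ (x b).natAbs.primeFactors ∧ E ⊆ (x a).natAbs.primeFactors ∧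
    Real.log (tp E (x a).natAbs) + δ * Real.log (ht x) ≤ Real.log ((x a).natAbs : ℝ) ∧
    Real.log (pd (x 1 * x 2).natAbs.primeFactors) - Real.log p - Real.log (pd E) ≤
      (1 / 2 + ε) * Real.log (pd (x 1 * x 2).natAbs.primeFactors)

/-- SM4: the triples of small height. -/
def T_SM4 : Prop := ∀ A ε : ℝ, 1 ≤ A → 0 < ε → ∃ C : ℝ, 0 < C ∧ ∀ (s : ℕ) (X R : ℝ), 1 ≤ X →
  1 ≤ R → R ≤ X →
  {x | Adm x ∧ pd (x 0).natAbs.primeFactors = s ∧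
    (pd (x 1 * x 2).natAbs.primeFactors : ℝ) ≤ R ∧
    Real.log (ht x) ≤ A * Real.log X}.Finite ∧
  ({x | Adm x ∧ pd (x 0).natAbs.primeFactors = s ∧
    (pd (x 1 * x 2).natAbs.primeFactors : ℝ) ≤ R ∧
    Real.log (ht x) ≤ A * Real.log X}.ncard : ℝ) ≤ C * R ^ (1 / 2 : ℝ) * X ^ ε

/-- LP4: the triples of `Two4` of moderate height. -/
def T_LP4 : Prop := ∀ ε δ : ℝ, 0 < ε → 0 < δ → ∃ A C : ℝ, 1 ≤ A ∧ 0 < C ∧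
  ∀ (s : ℕ) (X Y Z : ℝ), 2 ≤ X → 1 ≤ Y → 1 ≤ Z → Z ≤ X →
  {x | x ∈ Two4 s X Y δ ∧ A * Real.log X ≤ Real.log (ht x) ∧ Real.log (ht x) ≤ Z}.Finite ∧
  ({x | x ∈ Two4 s X Y δ ∧ A * Real.log X ≤ Real.log (ht x) ∧
    Real.log (ht x) ≤ Z}.ncard : ℝ) ≤ C * Y * Z * X ^ ε

/-- TLP4: the triples of `Two4` of large height. -/
def T_TLP4 : Prop := ∀ ε δ c₀ : ℝ, 0 < ε → 0 < δ → 0 < c₀ → ∃ C : ℝ, 0 < C ∧
  ∀ (s : ℕ) (X Y : ℝ), 2 ≤ X → 1 ≤ Y →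
  {x | x ∈ Two4 s X Y δ ∧ X ^ c₀ ≤ Real.log (ht x)}.Finite ∧
  ({x | x ∈ Two4 s X Y δ ∧ X ^ c₀ ≤ Real.log (ht x)}.ncard : ℝ) ≤ C * Y * X ^ ε

/-- LGT4: the triples for which the radical divided by a set of primes of small weight is a
multiple of `s` and at most `s Y`. -/
def T_LGT4 : Prop := ∀ δ ε : ℝ, 0 < δ → 0 < ε → ∃ C : ℝ, 0 < C ∧ ∀ (s : ℕ) (Y : ℝ), 1 ≤ s →
  1 ≤ Y →
  {x | ∃ S : Finset ℕ, (∀ p ∈ S, p.Prime) ∧ s.primeFactors ⊆ S ∧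
    (pd (S \ s.primeFactors) : ℝ) ≤ Y ∧ x ∈ Sol (1 - δ) S}.Finite ∧
  ({x | ∃ S : Finset ℕ, (∀ p ∈ S, p.Prime) ∧ s.primeFactors ⊆ S ∧
    (pd (S \ s.primeFactors) : ℝ) ≤ Y ∧ x ∈ Sol (1 - δ) S}.ncard : ℝ) ≤
    C * Y ^ (1 + ε) * (s : ℝ) ^ ε

/-- FIN4: triples of any height with `rad (x 0) = s`. -/
def T_FIN4 : Prop := ∀ ε : ℝ, 0 < ε → ∃ C : ℝ, 0 < C ∧ ∀ (s : ℕ) (R : ℝ), 1 ≤ s → 1 ≤ R →
  {x | Adm x ∧ pd (x 0).natAbs.primeFactors = s ∧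
    (pd (x 1 * x 2).natAbs.primeFactors : ℝ) ≤ R}.Finite ∧
  ({x | Adm x ∧ pd (x 0).natAbs.primeFactors = s ∧
    (pd (x 1 * x 2).natAbs.primeFactors : ℝ) ≤ R}.ncard : ℝ) ≤
    C * (s * R) ^ ε * R ^ (1 / 2 : ℝ)

/-- LOW4: the lower bound for a given first entry. -/
def T_LOW4 : Prop := ∀ ε : ℝ, 0 < ε → ∃ c : ℝ, 0 < c ∧ ∀ (s : ℕ) (R : ℝ), Squarefree s →
  4 * (s : ℝ) ^ 2 ≤ R →
  c * (s : ℝ) ^ (-ε) * R ^ (1 / 2 : ℝ) ≤ ({x | Adm x ∧ x 0 = (s : ℤ) ∧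
    (pd (x 1 * x 2).natAbs.primeFactors : ℝ) ≤ R ∧ (ht x : ℝ) ≤ R}.ncard : ℝ)

end Pool.Agent.H82.RD
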