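import Mathlib
import Pool.Agent.H82.RD.Defs

/-!
# Basic facts on `VV`, `hf`, `tr`, `ev`, `Sx`
-/

set_option autoImplicit false

open MvPolynomial

namespace Pool.Agent.H82.RD

variable {k : Type} [Field k] {u : ℕ}

theorem mem_VV {a b : ℕ} {f : PR k u} :
    f ∈ VV k u a b ↔ ∀ m ∈ f.support, ∑ i : Fin u, m (some i) ≤ a ∧ m none ≤ b := by
  rw [VV, mem_restrictSupport_iff]
  exact ⟨fun h m hm => h hm, fun h m hm => h m hm⟩

theorem VV_mono {a a' b b' : ℕ} (ha : a ≤ a') (hb : b ≤ b') : VV k u a b ≤ VV k u a' b' :=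
  restrictSupport_mono _ fun _ hm => ⟨hm.1.trans ha, hm.2.trans hb⟩

theorem VV_mul {a a' b b' : ℕ} {f g : PR k u} (hf : f ∈ VV k u a b) (hg : g ∈ VV k u a' b') :
    f * g ∈ VV k u (a + a') (b + b') := by
  classical
  rw [mem_VV] at *
  intro m hm
  obtain ⟨m₁, h₁, m₂, h₂, rfl⟩ := Finset.mem_add.1 (support_mul f g hm)
  have e1 := hf m₁ h₁
  have e2 := hg m₂ h₂
  simp only [Finsupp.add_apply, Finset.sum_add_distrib]
  omega

theorem C_mem_VV (a b : ℕ) (c : k) : (C c : PR k u) ∈ VV k u a b := by
  rw [mem_VV]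
  intro m hm
  have : m = 0 := by
    by_contra h
    rw [mem_support_iff, coeff_C, if_neg (Ne.symm h)] at hm
    exact hm rfl
  subst this
  simp

theorem X_some_mem_VV (i : Fin u) : (X (some i) : PR k u) ∈ VV k u 1 0 := by
  classical
  rw [mem_VV]
  intro m hm
  rw [support_X, Finset.mem_singleton] at hm
  subst hm
  simp [Finsupp.single_apply]

theorem X_none_mem_VV : (X none : PR k u) ∈ VV k u 0 1 := by
  classical
  rw [mem_VV]
  intro m hm
  rw [support_X, Finset.mem_singleton] at hm
  subst hm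
  simp

theorem VV_pow {a b : ℕ} {f : PR k u} (hf : f ∈ VV k u a b) (n : ℕ) :
    f ^ n ∈ VV k u (n * a) (n * b) := by
  induction n with
  | zero => simpa using C_mem_VV 0 0 (1 : k)
  | succ n ih =>
    rw [pow_succ, Nat.succ_mul, Nat.succ_mul]
    exact VV_mul ih hf

theorem finite_exponents (a b : ℕ) :
    {m : Option (Fin u) →₀ ℕ | ∑ i : Fin u, m (some i) ≤ a ∧ m none ≤ b}.Finite := by
  classical
  apply Set.Finite.subset (s := ((Finset.univ : Finset (Option (Fin u))).finsupp
    (fun _ => Finset.range (a + b + 1)) : Set _)) (Finset.finite_toSet _)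
  intro m hm
  rw [Finset.mem_coe, Finset.mem_finsupp_iff]
  refine ⟨fun _ _ => Finset.mem_coe.2 (Finset.mem_univ _), ?_⟩
  intro o _
  rw [Finset.mem_range]
  cases o with
  | none => have := hm.2; omega
  | some i =>
    have h1 := hm.1
    have h2 : m (some i) ≤ ∑ j : Fin u, m (some j) :=
      Finset.single_le_sum (f := fun j : Fin u => m (some j)) (fun _ _ => Nat.zero_le _)
        (Finset.mem_univ i)
    omega

instance VV_finite (a b : ℕ) : Module.Finite k (VV k u a b) := by
  have : Finite {m : Option (Fin u) →₀ ℕ | ∑ i : Fin u, m (some i) ≤ a ∧ m none ≤ b} :=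
    (finite_exponents a b).to_subtype
  exact Module.Finite.of_basis (basisRestrictSupport k _)

theorem finrank_VV (a b : ℕ) : Module.finrank k (VV k u a b) =
    {m : Option (Fin u) →₀ ℕ | ∑ i : Fin u, m (some i) ≤ a ∧ m none ≤ b}.ncard := by
  exact Module.finrank_eq_nat_card_basis (basisRestrictSupport k
    {m : Option (Fin u) →₀ ℕ | ∑ i : Fin u, m (some i) ≤ a ∧ m none ≤ b})

theorem exists_mem_VV {A B : ℕ} (hA : 1 ≤ A) (hB : 1 ≤ B) (f : PR k u) :
    ∃ c : ℕ, f ∈ VV k u (A * c) (B * c) := by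
  classical
  refine ⟨f.support.sup (fun m => ∑ i : Fin u, m (some i) + m none), ?_⟩
  rw [mem_VV]
  intro m hm
  have h := Finset.le_sup (f := fun m : Option (Fin u) →₀ ℕ => ∑ i : Fin u, m (some i) + m none) hm
  have h2 : ∀ c : ℕ, ∀ n : ℕ, 1 ≤ n → c ≤ n * c := fun c n hn => by nlinarith
  constructor
  · exact (le_trans (by simp) h).trans (h2 _ _ hA)
  · exact (le_trans (by simp) h).trans (h2 _ _ hB)

theorem hf_mono (A B : ℕ) (I : Ideal (PR k u)) {S S' : ℕ} (h : S ≤ S') :
    hf A B I S ≤ hf A B I S' :=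
  Submodule.finrank_mono (Submodule.map_mono
    (VV_mono (Nat.mul_le_mul_left _ h) (Nat.mul_le_mul_left _ h)))

@[simp] theorem tr_none (w : Fin u → k) (y : k) : tr w y (X none) = C y * X none := by
  simp [tr]

@[simp] theorem tr_some (w : Fin u → k) (y : k) (i : Fin u) :
    tr w y (X (some i)) = X (some i) + C (w i) := by
  simp [tr]

theorem tr_comp (w w' : Fin u → k) (y y' : k) :
    (tr w y).comp (tr w' y') = tr (w + w') (y * y') := by
  apply algHom_ext
  intro o
  cases o with
  | none =>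
    simp only [AlgHom.comp_apply, tr_none, map_mul, algHom_C, algebraMap_eq]
    ring
  | some i =>
    simp only [AlgHom.comp_apply, tr_some, map_add, algHom_C, algebraMap_eq, Pi.add_apply]
    ring

theorem tr_tr (w w' : Fin u → k) (y y' : k) (f : PR k u) :
    tr w y (tr w' y' f) = tr (w + w') (y * y') f := by
  rw [← tr_comp]; rfl

theorem tr_id (f : PR k u) : tr 0 1 f = f := by
  have : tr (0 : Fin u → k) 1 = AlgHom.id k (PR k u) := by
    apply algHom_ext
    intro o
    cases o <;> simp
  rw [this]; rfl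

theorem ev_tr (w w' : Fin u → k) (y y' : k) (f : PR k u) :
    ev w y (tr w' y' f) = ev (w + w') (y * y') f := by
  have h : (aeval (fun o : Option (Fin u) => o.elim y w) : PR k u →ₐ[k] k).comp (tr w' y') =
      aeval (fun o : Option (Fin u) => o.elim (y * y') (w + w')) := by
    apply algHom_ext
    intro o
    cases o with
    | none => simp [mul_comm]
    | some i => simp
  have h2 := congrArg (fun g : PR k u →ₐ[k] k => g f) h
  simpa [ev, aeval_eq_eval] using h2

/-- without `Y` the factor `y` plays no role -/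
theorem tr_rename (w : Fin u → k) (y : k) (f : MvPolynomial (Fin u) k) :
    tr w y (rename some f) = tr w 1 (rename some f) := by
  have h : (tr w y).comp (rename (R := k) some) = (tr w 1).comp (rename some) := by
    apply algHom_ext
    intro i
    simp
  exact congrArg (fun g : MvPolynomial (Fin u) k →ₐ[k] PR k u => g f) h

theorem tr_bijective (w : Fin u → k) {y : k} (hy : y ≠ 0) : Function.Bijective (tr w y) := by
  constructor
  · intro f g h
    have := congrArg (tr (-w) y⁻¹) h
    simpa [tr_tr, hy, tr_id] using this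
  · intro f
    exact ⟨tr (-w) y⁻¹ f, by simp [tr_tr, hy, tr_id]⟩

theorem comap_tr_isPrime (w : Fin u → k) (y : k) (p : Ideal (PR k u)) [p.IsPrime] :
    (p.comap (tr w y)).IsPrime := Ideal.comap_isPrime _ _

theorem mem_Sx {v A : ℕ} {a : Fin v → ℕ} : a ∈ Sx v A ↔ ∑ i, a i ≤ A := by
  rw [Sx, Finset.mem_filter, Fintype.mem_piFinset, and_iff_right_iff_imp]
  intro h i
  rw [Finset.mem_range]
  have := Finset.single_le_sum (f := a) (fun _ _ => Nat.zero_le _) (Finset.mem_univ i)
  omega

end Pool.Agent.H82.RD
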