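import Mathlib
import Pool.Agent.H38.AE.Statement

/-!
# Admissible triples of any height with small radical: definitions of the statement
-/

set_option autoImplicit false

namespace Pool.Agent.H82.RD

open Pool.Agent.H38.AE.Statement

/-- The admissible triples, of any height, whose product has radical at most `X`. -/
def ByRadical (X : ℝ) : Set (Fin 3 → ℤ) :=
  {x | Admissible x ∧ (radical (∏ i, x i) : ℝ) ≤ X}

/-- The admissible triples, of any height, for which the entry `x i` has radical `s` and the
product of the two other entries has radical at most `R`. -/
def WithEntry (i : Fin 3) (s : ℕ) (R : ℝ) : Set (Fin 3 → ℤ) :=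
  {x | Admissible x ∧ radical (x i) = s ∧
    (radical (∏ j ∈ Finset.univ.erase i, x j) : ℝ) ≤ R}

end Pool.Agent.H82.RD
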