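import Mathlib
import Pool.Agent.H82.RD.Stmt
import Pool.Agent.H82.RD.Targets4

/-!
# From the targets to the statement
-/

set_option autoImplicit false

namespace Pool.Agent.H82.RD

open Pool.Agent.H38.AE.Statement Pool.Agent.H38.RB Pool.Agent.H38.PS

theorem adm_iff (x : Fin 3 → ℤ) : Admissible x ↔ Adm x := by
  unfold Admissible Adm
  rw [Fin.sum_univ_three]

theorem byRadical_eq (X : ℝ) :
    ByRadical X = {x | Adm x ∧ (pd (pr x).primeFactors : ℝ) ≤ X} := by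
  ext x
  simp only [ByRadical, Set.mem_setOf_eq, adm_iff, radical, pd, pr, Fin.prod_univ_three]

/-- exchange of the entries `0` and `i` -/
def sw (i : Fin 3) (x : Fin 3 → ℤ) : Fin 3 → ℤ := fun j => x (Equiv.swap 0 i j)

theorem sw_sw (i : Fin 3) (x : Fin 3 → ℤ) : sw i (sw i x) = x := by
  funext j
  simp [sw]

theorem sw_injective (i : Fin 3) : Function.Injective (sw i) := fun x y h => by
  rw [← sw_sw i x, h, sw_sw]

theorem admissible_sw (i : Fin 3) {x : Fin 3 → ℤ} (h : Admissible x) : Admissible (sw i x) := by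
  refine ⟨fun j => h.1 _, fun j l hjl => h.2.1 _ _ fun h' => hjl ((Equiv.swap 0 i).injective h'),
    ?_⟩
  have := Equiv.sum_comp (Equiv.swap 0 i) x
  exact this.trans h.2.2

theorem prod_erase_zero (x : Fin 3 → ℤ) :
    ∏ j ∈ Finset.univ.erase (0 : Fin 3), x j = x 1 * x 2 := by
  have : (Finset.univ.erase (0 : Fin 3)) = {1, 2} := by decide
  rw [this, Finset.prod_pair (by decide)]

theorem prod_erase_sw (i : Fin 3) (x : Fin 3 → ℤ) :
    ∏ j ∈ Finset.univ.erase (0 : Fin 3), sw i x j = ∏ j ∈ Finset.univ.erase i, x j := by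
  refine Finset.prod_bij (fun j _ => Equiv.swap 0 i j) ?_ ?_ ?_ ?_
  · intro j hj
    rw [Finset.mem_erase] at hj ⊢
    refine ⟨fun h => hj.1 ?_, Finset.mem_univ _⟩
    have := congrArg (Equiv.swap 0 i) h
    simpa using this
  · intro a _ b _ h
    exact (Equiv.swap 0 i).injective h
  · intro b hb
    rw [Finset.mem_erase] at hb
    refine ⟨Equiv.swap 0 i b, ?_, by simp⟩
    rw [Finset.mem_erase]
    refine ⟨fun h => hb.1 ?_, Finset.mem_univ _⟩
    have := congrArg (Equiv.swap 0 i) h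
    simpa using this
  · intro j _
    rfl

theorem withEntry_zero (s : ℕ) (R : ℝ) : WithEntry 0 s R =
    {x | Adm x ∧ pd (x 0).natAbs.primeFactors = s ∧
      (pd (x 1 * x 2).natAbs.primeFactors : ℝ) ≤ R} := by
  ext x
  simp only [WithEntry, Set.mem_setOf_eq, adm_iff, prod_erase_zero, radical, pd]

theorem withEntry_eq (i : Fin 3) (s : ℕ) (R : ℝ) :
    WithEntry i s R = sw i '' WithEntry 0 s R := by
  ext x
  constructor
  · rintro ⟨h1, h2, h3⟩
    refine ⟨sw i x, ⟨admissible_sw i h1, ?_, ?_⟩, sw_sw i x⟩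
    · simpa [sw] using h2
    · rwa [prod_erase_sw]
  · rintro ⟨y, ⟨h1, h2, h3⟩, rfl⟩
    refine ⟨admissible_sw i h1, ?_, ?_⟩
    · simpa [sw] using h2
    · rw [← prod_erase_sw, sw_sw]
      exact h3

theorem glue (hFIN : T_FIN4) (hLOW : T_LOW4) (hTFI : T_TFI) (hLOWC : T_LOWC) :
    (∀ ε : ℝ, 0 < ε → ∃ C : ℝ, 0 < C ∧ ∀ X : ℝ, 1 ≤ X → (ByRadical X).Finite ∧
      ((ByRadical X).ncard : ℝ) ≤ C * X ^ (2 / 3 + ε)) ∧
    (∃ c : ℝ, 0 < c ∧ ∀ X : ℝ, 2 ≤ X → c * X ^ (2 / 3 : ℝ) ≤ ((ByRadical X).ncard : ℝ)) ∧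
    (∀ ε : ℝ, 0 < ε → ∃ C : ℝ, 0 < C ∧ ∀ (i : Fin 3) (s : ℕ) (R : ℝ), 1 ≤ s → 1 ≤ R →
      (WithEntry i s R).Finite ∧
      ((WithEntry i s R).ncard : ℝ) ≤ C * (s * R) ^ ε * R ^ (1 / 2 : ℝ)) ∧
    (∀ ε : ℝ, 0 < ε → ∃ c : ℝ, 0 < c ∧ ∀ (i : Fin 3) (s : ℕ) (R : ℝ), Squarefree s →
      4 * (s : ℝ) ^ 2 ≤ R →
      c * (s : ℝ) ^ (-ε) * R ^ (1 / 2 : ℝ) ≤ ((WithEntry i s R).ncard : ℝ)) := by
  have hfin : ∀ X : ℝ, 1 ≤ X → (ByRadical X).Finite := by
    intro X hX
    obtain ⟨C, -, h⟩ := hTFI 1 one_pos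
    rw [byRadical_eq]
    exact (h X hX).1
  refine ⟨?_, ?_, ?_, ?_⟩
  · intro ε hε
    obtain ⟨C, hC, h⟩ := hTFI ε hε
    refine ⟨C, hC, fun X hX => ?_⟩
    rw [byRadical_eq]
    exact h X hX
  · obtain ⟨c, hc, h⟩ := hLOWC
    refine ⟨min c (1 / 4), lt_min hc (by norm_num), fun X hX => ?_⟩
    rcases le_or_gt 8 X with h8 | h8
    · have h1 := h X h8
      have h2 : ({x | Adm x ∧ (pd (pr x).primeFactors : ℝ) ≤ X ∧ (ht x : ℝ) ≤ X}.ncard : ℝ) ≤
          ((ByRadical X).ncard : ℝ) := by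
        have h3 := Set.ncard_le_ncard (s := {x | Adm x ∧ (pd (pr x).primeFactors : ℝ) ≤ X ∧
          (ht x : ℝ) ≤ X}) (t := ByRadical X) (by
            intro x hx
            rw [byRadical_eq]
            exact ⟨hx.1, hx.2.1⟩) (hfin X (by linarith))
        exact_mod_cast h3
      calc min c (1 / 4) * X ^ (2 / 3 : ℝ) ≤ c * X ^ (2 / 3 : ℝ) := by
            gcongr
            exact min_le_left _ _
        _ ≤ _ := h1.trans h2
    · have hne : (ByRadical X).Nonempty := by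
        refine ⟨![1, 1, -2], ?_⟩
        rw [byRadical_eq]
        refine ⟨⟨?_, ?_, ?_⟩, ?_⟩
        · intro i; fin_cases i <;> simp
        · intro i j hij
          fin_cases i <;> fin_cases j <;> simp_all [isCoprime_one_left, isCoprime_one_right]
        · simp
        · have : pr ![1, 1, -2] = 2 := by simp [pr]
          rw [this, pd, Nat.Prime.primeFactors Nat.prime_two]
          simpa using hX
      have h1 : 1 ≤ (ByRadical X).ncard := by
        rw [Nat.one_le_iff_ne_zero]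
        exact (Set.ncard_pos (hfin X (by linarith))).2 hne |>.ne'
      have h2 : X ^ (2 / 3 : ℝ) ≤ 4 := by
        calc X ^ (2 / 3 : ℝ) ≤ (8 : ℝ) ^ (2 / 3 : ℝ) :=
              Real.rpow_le_rpow (by linarith) h8.le (by norm_num)
          _ = 4 := by
              rw [show (8 : ℝ) = 2 ^ (3 : ℝ) by norm_num, ← Real.rpow_mul (by norm_num)]
              norm_num
      calc min c (1 / 4) * X ^ (2 / 3 : ℝ) ≤ 1 / 4 * 4 := by
            apply mul_le_mul (min_le_right _ _) h2 (by positivity) (by norm_num)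
        _ = 1 := by norm_num
        _ ≤ _ := by exact_mod_cast h1
  · intro ε hε
    obtain ⟨C, hC, h⟩ := hFIN ε hε
    refine ⟨C, hC, fun i s R hs hR => ?_⟩
    have h0 := h s R hs hR
    rw [← withEntry_zero] at h0
    rw [withEntry_eq, Set.ncard_image_of_injective _ (sw_injective i)]
    exact ⟨h0.1.image _, h0.2⟩
  · intro ε hε
    obtain ⟨c, hc, h⟩ := hLOW ε hε
    refine ⟨c, hc, fun i s R hs hR => ?_⟩
    have hs1 : 1 ≤ s := Nat.one_le_iff_ne_zero.2 hs.ne_zero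
    have hR1 : 1 ≤ R := by
      have : (1 : ℝ) ≤ s := by exact_mod_cast hs1
      nlinarith
    obtain ⟨C, -, hF⟩ := hFIN 1 one_pos
    have h0 := (hF s R hs1 hR1).1
    rw [withEntry_eq, Set.ncard_image_of_injective _ (sw_injective i), withEntry_zero]
    refine (h s R hs hR).trans ?_
    have h3 := Set.ncard_le_ncard (s := {x | Adm x ∧ x 0 = (s : ℤ) ∧
      (pd (x 1 * x 2).natAbs.primeFactors : ℝ) ≤ R ∧ (ht x : ℝ) ≤ R})
      (t := {x | Adm x ∧ pd (x 0).natAbs.primeFactors = s ∧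
        (pd (x 1 * x 2).natAbs.primeFactors : ℝ) ≤ R}) (by
        rintro x ⟨h1, h2, h3, -⟩
        refine ⟨h1, ?_, h3⟩
        rw [h2, Int.natAbs_natCast, pd]
        exact Nat.prod_primeFactors_of_squarefree hs) h0
    exact_mod_cast h3

end Pool.Agent.H82.RD
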