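import Pool.Agent.H82.RD.All
import Pool.Agent.H82.RD.Glue
import Pool.Agent.H89.PS.LOWC
import Pool.Agent.H48.RD.POW4
import Pool.Agent.H68.RD.SEL4
import Pool.Agent.H68.RD.SM4
import Pool.Agent.H94.RD.LP4
import Pool.Agent.H19.RD.TLP4
import Pool.Agent.H34.RD.LGT4
import Pool.Agent.H56.RD.FIN4
import Pool.Agent.H89.RD.LOW4

/-!
# Admissible triples with one entry of given radical: assembly
-/

set_option autoImplicit false

namespace Pool.Agent.H82.RD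

open Pool.Agent.H38.RB Pool.Agent.H38.PS

theorem lp4 : T_LP4 :=
  Pool.Agent.H94.RD.pf_LP4
    (Pool.Agent.H19.PS.pf_LPC2 Pool.Agent.H96.PS.pf_CLS2
      (Pool.Agent.H95.PS.pf_PIG Pool.Agent.H21.PS.pf_LTE) Pool.Agent.H10.PS.pf_NUM2)
    qr (COME com) Pool.Agent.H48.RD.pf_POW4

theorem tlp4 : T_TLP4 := Pool.Agent.H19.RD.pf_TLP4 tls qr (COME com) Pool.Agent.H48.RD.pf_POW4

theorem lgt4 : T_LGT4 := Pool.Agent.H34.RD.pf_LGT4 qr (COME com) Pool.Agent.H48.RD.pf_POW4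

theorem fin4 : T_FIN4 :=
  Pool.Agent.H56.RD.pf_FIN4 Pool.Agent.H68.RD.pf_SM4 Pool.Agent.H68.RD.pf_SEL4
    Pool.Agent.H19.PS.pf_REM2 lgt4 lp4 tlp4

theorem low4 : T_LOW4 := Pool.Agent.H89.RD.pf_LOW4 Pool.Agent.H48.RD.pf_POW4

end Pool.Agent.H82.RD
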