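import Pool.Agent.H38.PS.All
import Pool.Agent.H82.RD.Targets
import Pool.Agent.H34.RD.DC1
import Pool.Agent.H33.RD.DC2
import Pool.Agent.H3.RD.DCA
import Pool.Agent.H66.RD.DCL
import Pool.Agent.H68.RD.DCW
import Pool.Agent.H37.RD.DLA
import Pool.Agent.H1.RD.DPF
import Pool.Agent.H49.RD.DRK
import Pool.Agent.H11.RD.DXI
import Pool.Agent.H77.RD.DXL
import Pool.Agent.H59.RD.DXO
import Pool.Agent.H37.RD.DXY
import Pool.Agent.H68.RD.DXZ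
import Pool.Agent.H66.RD.DZE
import Pool.Agent.H34.RD.HAB
import Pool.Agent.H38.RD.HMH
import Pool.Agent.H46.RD.HNU
import Pool.Agent.H40.RD.LDL
import Pool.Agent.H24.RD.LPR
import Pool.Agent.H1.RD.LRL
import Pool.Agent.H42.RD.MDV
import Pool.Agent.H79.RD.MRS
import Pool.Agent.H88.RD.MST
import Pool.Agent.H93.RD.MTH
import Pool.Agent.H81.RD.MZ0
import Pool.Agent.H63.RD.SAB
import Pool.Agent.H38.RD.SMH
import Pool.Agent.H93.RD.SNU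
import Pool.Agent.H56.RD.TFI
import Pool.Agent.H96.RD.THB
import Pool.Agent.H68.RD.TLP
import Pool.Agent.H11.RD.TLS
import Pool.Agent.H13.RD.TQC
import Pool.Agent.H79.RD.UCO
import Pool.Agent.H39.RD.ZCH
import Pool.Agent.H91.RD.ZCI
import Pool.Agent.H55.RD.ZCO
import Pool.Agent.H91.RD.ZCT
import Pool.Agent.H64.RD.ZIN
import Pool.Agent.H56.RD.ZJI
import Pool.Agent.H88.RD.ZLF
import Pool.Agent.H3.RD.ZLM
import Pool.Agent.H59.RD.ZLN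
import Pool.Agent.H96.RD.ZPI
import Pool.Agent.H70.RD.ZRT
import Pool.Agent.H95.RD.ZSM
import Pool.Agent.H90.RD.ZSP
import Pool.Agent.H94.RD.ZTH
import Pool.Agent.H33.RD.ZTV
import Pool.Agent.H90.RD.ZUV
import Pool.Agent.H19.RD.ZVB

/-!
# Admissible triples of any height with small radical: assembly
-/

set_option autoImplicit false

namespace Pool.Agent.H82.RD

open Pool.Agent.H38.RB

/-! ## the zero lemma -/

theorem zct : T_ZCT :=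
  Pool.Agent.H91.RD.pf_ZCT
    (Pool.Agent.H91.RD.pf_ZCI Pool.Agent.H95.RD.pf_ZSM Pool.Agent.H96.RD.pf_ZPI)
    Pool.Agent.H95.RD.pf_ZSM Pool.Agent.H95.RD.pf_ZD0
    (Pool.Agent.H70.RD.pf_ZRT Pool.Agent.H3.RD.pf_DCA)

theorem zth : T_ZTH := Pool.Agent.H94.RD.pf_ZTH Pool.Agent.H33.RD.pf_ZTV

theorem zch : T_ZCH :=
  Pool.Agent.H39.RD.pf_ZCH Pool.Agent.H95.RD.pf_ZSM Pool.Agent.H95.RD.pf_ZD0
    Pool.Agent.H33.RD.pf_ZTV zth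

theorem zln : T_ZLN :=
  Pool.Agent.H59.RD.pf_ZLN Pool.Agent.H95.RD.pf_ZSM Pool.Agent.H95.RD.pf_ZD0
    Pool.Agent.H19.RD.pf_ZVB Pool.Agent.H88.RD.pf_ZLF zct zth zch Pool.Agent.H90.RD.pf_ZSP
    Pool.Agent.H64.RD.pf_ZIN Pool.Agent.H90.RD.pf_ZUV Pool.Agent.H55.RD.pf_ZCO
    Pool.Agent.H56.RD.pf_ZJI

theorem zlm : T_ZLM := Pool.Agent.H3.RD.pf_ZLM zln Pool.Agent.H33.RD.pf_ZTV

/-! ## the determinant -/

theorem dxi : T_DXI :=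
  Pool.Agent.H11.RD.pf_DXI Pool.Agent.H77.RD.pf_DXL Pool.Agent.H37.RD.pf_DXY
    Pool.Agent.H68.RD.pf_DXZ Pool.Agent.H59.RD.pf_DXO

theorem dc1 : T_DC1 := Pool.Agent.H34.RD.pf_DC1 Pool.Agent.H37.RD.pf_DLA Pool.Agent.H3.RD.pf_DCA

theorem dc2 : T_DC2 :=
  Pool.Agent.H33.RD.pf_DC2 Pool.Agent.H37.RD.pf_DLA Pool.Agent.H68.RD.pf_DCW dxi
    Pool.Agent.H77.RD.pf_DXL Pool.Agent.H3.RD.pf_DCA

theorem dcl : T_DCL := Pool.Agent.H66.RD.pf_DCL dc1 dc2 Pool.Agent.H66.RD.pf_DZE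

/-! ## the machine -/

theorem mdv : T_MDV :=
  Pool.Agent.H42.RD.pf_MDV dcl Pool.Agent.H1.RD.pf_DPF Pool.Agent.H3.RD.pf_DCA

theorem mst : T_MST := Pool.Agent.H88.RD.pf_MST mdv Pool.Agent.H49.RD.pf_DRK zlm

theorem mth : T_MTH :=
  Pool.Agent.H93.RD.pf_MTH Pool.Agent.H81.RD.pf_MZ0
    (Pool.Agent.H79.RD.pf_MRS Pool.Agent.H79.RD.pf_UCO) mst

/-! ## applications -/

theorem ldl : T_LDL := Pool.Agent.H40.RD.pf_LDL

theorem lpr : T_LPR := Pool.Agent.H24.RD.pf_LPR ldl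

theorem lrl : T_LRL := Pool.Agent.H1.RD.pf_LRL ldl

theorem sab : T_SAB :=
  Pool.Agent.H63.RD.pf_SAB mth (Pool.Agent.H38.RD.pf_SMH ldl lpr lrl) Pool.Agent.H93.RD.pf_SNU

theorem hab : T_HAB :=
  Pool.Agent.H34.RD.pf_HAB mth (Pool.Agent.H38.RD.pf_HMH ldl lpr lrl) Pool.Agent.H46.RD.pf_HNU

theorem thb : T_THB := Pool.Agent.H96.RD.pf_THB hab Pool.Agent.H13.RD.pf_TQC

theorem tls : T_TLS := Pool.Agent.H11.RD.pf_TLS sab Pool.Agent.H13.RD.pf_TQC thb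

theorem tlp : T_TLP := Pool.Agent.H68.RD.pf_TLP tls qr (COME com)

theorem tfi : T_TFI :=
  Pool.Agent.H56.RD.pf_TFI tlp Pool.Agent.H38.PS.fa2 Pool.Agent.H59.AB.pf_SEL3
    Pool.Agent.H19.PS.pf_REM2 Pool.Agent.H38.PS.lgt2

end Pool.Agent.H82.RD
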